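import Pool.Agent.N922.PQ.Lat

/-!
# Local squares give common isotropic vectors modulo `Q` (number fields)

Project PQ (helper922), part TTV, after `Pool/Agent/N134/PP/{Base,TTV}.lean`.
-/

set_option autoImplicit false
set_option linter.all false

open IsDedekindDomain NumberField Polynomial
open scoped Classical

namespace Pool.Agent.N301.PQ

open Pool.Agent.N922.PQ
open Pool.Agent.N874.PP (Ev Sq1 U0)

section coord

variable {L : Type} [Field L] [CharZero L] {a b : ℤ} {θ : L}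

theorem co_crd (h : IsCub a b θ) {v : Fin 3 → ℤ} {x : L} (hx : Crd θ v x) (i : Fin 3) :
    h.co i x = (v i : ℚ) := by
  have h1 : x = ∑ j, ((v j : ℚ)) • h.basis j := by
    rw [Fin.sum_univ_three, h.basis_apply, h.basis_apply, h.basis_apply, hx]
    simp [vec, Rat.smul_def]
  rw [h1, IsCub.co, Module.Basis.coord_apply, Module.Basis.repr_sum_self]

theorem crd_inj (h : IsCub a b θ) {v w : Fin 3 → ℤ} {x : L} (hv : Crd θ v x)
    (hw : Crd θ w x) : v = w := by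
  funext i
  have h1 : ((v i : ℤ) : ℚ) = ((w i : ℤ) : ℚ) := by rw [← co_crd h hv, co_crd h hw]
  exact_mod_cast h1

theorem crd_add {v w : Fin 3 → ℤ} {x y : L} (hv : Crd θ v x) (hw : Crd θ w y) :
    Crd θ (v + w) (x + y) := by
  unfold Crd at *
  rw [hv, hw]
  simp only [Pi.add_apply, Int.cast_add]
  ring

theorem crd_smul {v : Fin 3 → ℤ} {x : L} (c : ℤ) (hv : Crd θ v x) :
    Crd θ (fun i => c * v i) ((c : L) * x) := by
  unfold Crd at *
  rw [hv]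
  simp only [Int.cast_mul]
  ring

theorem crd_C (θ : L) (c : ℤ) : Crd θ ![c, 0, 0] (c : L) := by
  simp [Crd]

/-- multiplication by `θ` -/
theorem crd_theta (h : IsCub a b θ) {v : Fin 3 → ℤ} {x : L} (hv : Crd θ v x) :
    Crd θ ![-b * v 2, v 0 - a * v 2, v 1] (θ * x) := by
  have h3 := h.root
  unfold Crd at *
  rw [hv]
  simp only [Matrix.cons_val_zero, Matrix.cons_val_one, Matrix.cons_val, Int.cast_mul, Int.cast_neg,
    Int.cast_sub]
  linear_combination ((v 2 : ℤ) : L) * h3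

end coord

section primes

variable {L O : Type} [Field L] [CommRing O] [IsDedekindDomain O] [Algebra O L]
  [IsFractionRing O L]

/-- the integers in a prime over `Q` -/
theorem poly_mem {Q : ℤ} (hQ : Prime Q) {𝔓 : HeightOneSpectrum O} (hv : Ov Q 𝔓)
    (p : ℤ) : (p : O) ∈ 𝔓.asIdeal ↔ Q ∣ p := by
  constructor
  · intro hp
    by_contra hn
    obtain ⟨u, w, huw⟩ := hQ.irreducible.coprime_iff_not_dvd.2 hn
    apply 𝔓.isPrime.ne_top
    rw [Ideal.eq_top_iff_one]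
    have h1 : (u : O) * (Q : O) + (w : O) * (p : O) = 1 := by
      exact_mod_cast congrArg (Int.cast (R := O)) huw
    rw [← h1]
    exact 𝔓.asIdeal.add_mem (𝔓.asIdeal.mul_mem_left _ hv) (𝔓.asIdeal.mul_mem_left _ hp)
  · rintro ⟨c, rfl⟩
    rw [Int.cast_mul]
    exact 𝔓.asIdeal.mul_mem_right _ hv

theorem val_lt_mem (𝔓 : HeightOneSpectrum O) (z : O) :
    𝔓.valuation L (algebraMap O L z) < 1 ↔ z ∈ 𝔓.asIdeal :=
  𝔓.valuation_lt_one_iff_mem z

end primes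

theorem mapO {L O : Type} [Field L] [CommRing O] [Algebra O L] (p : ℤ) :
    algebraMap O L (p : O) = (p : L) := map_intCast _ p

section main

variable {L O : Type} [Field L] [NumberField L] [CommRing O]
  [IsDedekindDomain O] [Algebra O L] [IsFractionRing O L] {a b : ℤ} {θ : L}

/-- a maximal ideal which contains `Q` as a prime of the Dedekind domain -/
theorem exists_hos (L : Type) [Field L] [NumberField L] [Algebra O L] [IsFractionRing O L]
    {Q : ℤ} (hQ : Prime Q) (I : Ideal O)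
    (hI : I ≠ ⊤) (hIQ : (Q : O) ∈ I) :
    ∃ 𝔓 : HeightOneSpectrum O, Ov Q 𝔓 ∧ I ≤ 𝔓.asIdeal := by
  obtain ⟨M, hM, hIM⟩ := Ideal.exists_le_maximal I hI
  refine ⟨⟨M, hM.isPrime, ?_⟩, hIM hIQ, hIM⟩
  rintro rfl
  have h1 := hIM hIQ
  rw [Ideal.mem_bot] at h1
  apply hQ.ne_zero
  have h2 := congrArg (algebraMap O L) h1
  rw [mapO, map_zero] at h2
  exact_mod_cast h2

end main

section main

variable {L O : Type} [Field L] [NumberField L] [CommRing O]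
  [IsDedekindDomain O] [Algebra O L] [IsFractionRing O L] [IsIntegralClosure O ℤ L] {a b : ℤ} {θ : L}

theorem int_iff (O : Type) [CommRing O] [Algebra O L] [IsIntegralClosure O ℤ L] (x : L) :
    IsIntegral ℤ x ↔ ∃ z : O, algebraMap O L z = x :=
  IsIntegralClosure.isIntegral_iff (A := O)

variable (hI : S_INT) (h : IsCub a b θ) (hsq : Squarefree (dsc a b))

include hI h hsq in
theorem exO (z : O) : ∃ v : Fin 3 → ℤ, Crd θ v (algebraMap O L z) :=
  (hI L a b θ h hsq _).1 ((int_iff O _).2 ⟨z, rfl⟩)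

theorem theta_ex (O : Type) [CommRing O] [Algebra O L]
    [IsIntegralClosure O ℤ L] (h : IsCub a b θ) : ∃ t : O, algebraMap O L t = θ := by
  apply (int_iff O θ).1
  refine ⟨X ^ 3 + C a * X + C b, ?_, ?_⟩
  · monicity!
  · have h3 := h.root
    simp only [eval₂_add, eval₂_mul, eval₂_pow, eval₂_X, eval₂_C]
    simpa using h3

include hI h hsq in
/-- the prime over `Q` which contains `θ` -/
theorem exists_P1 {Q : ℤ} (hQ : Prime Q) (hQb : Q ∣ b) (t : O)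
    (ht : algebraMap O L t = θ) : ∃ 𝔓 : HeightOneSpectrum O, Ov Q 𝔓 ∧ t ∈ 𝔓.asIdeal := by
  obtain ⟨𝔓, h1, h2⟩ := exists_hos (O := O) L hQ (Ideal.span {(Q : O), t}) (by
    rw [Ne, Ideal.eq_top_iff_one, Ideal.mem_span_pair]
    rintro ⟨y, z, hyz⟩
    obtain ⟨v, hv⟩ := exO hI h hsq y
    obtain ⟨w, hw⟩ := exO hI h hsq z
    have e1 := crd_add (crd_smul Q hv) (crd_theta h hw)
    have e2 : (Q : L) * algebraMap O L y + θ * algebraMap O L z = ((1 : ℤ) : L) := by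
      have := congrArg (algebraMap O L) hyz
      rw [map_add, map_mul, map_mul, mapO, ht, map_one] at this
      rw [Int.cast_one, ← this]
      ring
    rw [e2] at e1
    have e3 := congrFun (crd_inj h e1 (crd_C θ 1)) 0
    simp only [Pi.add_apply, Matrix.cons_val_zero] at e3
    apply hQ.not_unit
    rw [isUnit_iff_dvd_one, ← e3]
    exact dvd_add (dvd_mul_right _ _) ((hQb.neg_right).mul_right _))
    (Ideal.subset_span (by simp))
  exact ⟨𝔓, h1, h2 (Ideal.subset_span (by simp))⟩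

include hI h hsq in
/-- the prime over `Q` which contains `θ ^ 2 + a` -/
theorem exists_P2 {Q : ℤ} (hQ : Prime Q) (hQb : Q ∣ b) (t : O)
    (ht : algebraMap O L t = θ) :
    ∃ 𝔓 : HeightOneSpectrum O, Ov Q 𝔓 ∧ t ^ 2 + (a : O) ∈ 𝔓.asIdeal := by
  obtain ⟨𝔓, h1, h2⟩ := exists_hos (O := O) L hQ
    (Ideal.span {(Q : O), t ^ 2 + (a : O)}) (by
    rw [Ne, Ideal.eq_top_iff_one, Ideal.mem_span_pair]
    rintro ⟨y, z, hyz⟩
    obtain ⟨v, hv⟩ := exO hI h hsq y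
    obtain ⟨w, hw⟩ := exO hI h hsq z
    have e1 := crd_add (crd_smul Q hv) (crd_add (crd_theta h (crd_theta h hw)) (crd_smul a hw))
    have e2 : (Q : L) * algebraMap O L y + (θ * (θ * algebraMap O L z) +
        (a : L) * algebraMap O L z) = ((1 : ℤ) : L) := by
      have := congrArg (algebraMap O L) hyz
      rw [map_add, map_mul, map_mul, map_add, map_pow, mapO, mapO, ht, map_one] at this
      rw [Int.cast_one, ← this]
      ring
    rw [e2] at e1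
    have e3 := crd_inj h e1 (crd_C θ 1)
    have e4 := congrFun e3 0
    have e5 := congrFun e3 2
    simp only [Pi.add_apply, Matrix.cons_val_zero, Matrix.cons_val_one, Matrix.cons_val] at e4 e5
    obtain ⟨c, hc⟩ := hQb
    apply hQ.not_unit
    rw [isUnit_iff_dvd_one]
    refine ⟨v 0 - c * w 1 - a * v 2, ?_⟩
    linear_combination -e4 + a * e5 - w 1 * hc)
    (Ideal.subset_span (by simp))
  exact ⟨𝔓, h1, h2 (Ideal.subset_span (by simp))⟩

/-- the elements of the prime which contains `θ` -/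
theorem mem_P1 {Q : ℤ} (hQ : Prime Q) {t : O} (ht : algebraMap O L t = θ)
    {𝔓 : HeightOneSpectrum O} (hv : Ov Q 𝔓) (ht1 : t ∈ 𝔓.asIdeal) {z : O} {v : Fin 3 → ℤ}
    (hz : Crd θ v (algebraMap O L z)) : z ∈ 𝔓.asIdeal ↔ Q ∣ v 0 := by
  have e : z = ((v 0 : ℤ) : O) + (((v 1 : ℤ) : O) + ((v 2 : ℤ) : O) * t) * t := by
    apply IsFractionRing.injective O L
    rw [hz]
    simp only [map_add, map_mul, mapO, ht]
    ring
  rw [← poly_mem hQ hv (v 0), e]
  have h2 := 𝔓.asIdeal.mul_mem_left (((v 1 : ℤ) : O) + ((v 2 : ℤ) : O) * t) ht1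
  constructor
  · intro h1
    have := 𝔓.asIdeal.sub_mem h1 h2
    rwa [add_sub_cancel_right] at this
  · intro h1
    exact 𝔓.asIdeal.add_mem h1 h2

/-- the elements of the prime which contains `θ ^ 2 + a` -/
theorem mem_P2 {Q : ℤ} (hQ : Prime Q) (hns : ∀ z : ℤ, ¬ Q ∣ z ^ 2 + a) {t : O}
    (ht : algebraMap O L t = θ) {𝔓 : HeightOneSpectrum O} (hv : Ov Q 𝔓)
    (ht2 : t ^ 2 + (a : O) ∈ 𝔓.asIdeal) {z : O} {v : Fin 3 → ℤ}
    (hz : Crd θ v (algebraMap O L z)) (hz2 : z ∈ 𝔓.asIdeal) : Q ∣ v 1 ∧ Q ∣ v 0 - a * v 2 := by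
  have e : ((v 0 - a * v 2 : ℤ) : O) + ((v 1 : ℤ) : O) * t =
      z - ((v 2 : ℤ) : O) * (t ^ 2 + (a : O)) := by
    apply IsFractionRing.injective O L
    have hz' : algebraMap O L z = _ := hz
    simp only [map_add, map_mul, map_sub, map_pow, mapO, ht, hz', Int.cast_sub, Int.cast_mul]
    ring
  have h1 : ((v 0 - a * v 2 : ℤ) : O) + ((v 1 : ℤ) : O) * t ∈ 𝔓.asIdeal := by
    rw [e]
    exact 𝔓.asIdeal.sub_mem hz2 (𝔓.asIdeal.mul_mem_left _ ht2)
  have h2 : (((v 0 - a * v 2) ^ 2 + a * (v 1) ^ 2 : ℤ) : O) ∈ 𝔓.asIdeal := by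
    have h3 := 𝔓.asIdeal.mul_mem_left (((v 0 - a * v 2 : ℤ) : O) - ((v 1 : ℤ) : O) * t) h1
    have h4 := 𝔓.asIdeal.add_mem h3 (𝔓.asIdeal.mul_mem_left (((v 1 : ℤ) : O) ^ 2) ht2)
    convert h4 using 1
    push_cast
    ring
  rw [poly_mem hQ hv] at h2
  have h3 : Q ∣ v 1 := by
    by_contra hn
    obtain ⟨u, w, huw⟩ := hQ.irreducible.coprime_iff_not_dvd.2 hn
    apply hns ((v 0 - a * v 2) * w)
    have h5 : Q ∣ w ^ 2 * ((v 0 - a * v 2) ^ 2 + a * (v 1) ^ 2) := h2.mul_left _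
    have h6 : w ^ 2 * ((v 0 - a * v 2) ^ 2 + a * (v 1) ^ 2) =
        ((v 0 - a * v 2) * w) ^ 2 + a + Q * (a * u * (u * Q - 2)) := by
      have h7 : w * v 1 = 1 - u * Q := by rw [← huw]; ring
      linear_combination a * (w * v 1 + 1 - u * Q) * h7
    rw [h6] at h5
    exact (dvd_add_left (dvd_mul_right _ _)).1 h5
  refine ⟨h3, ?_⟩
  have h5 : Q ∣ (v 0 - a * v 2) ^ 2 := by
    have h6 : Q ∣ a * (v 1) ^ 2 := (dvd_pow h3 two_ne_zero).mul_left _
    exact (dvd_add_left h6).1 h2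
  exact hQ.dvd_of_dvd_pow h5

/-- the elements of both primes are divisible by `Q` -/
theorem mem_both {Q : ℤ} (hQ : Prime Q) (hns : ∀ z : ℤ, ¬ Q ∣ z ^ 2 + a) {t : O}
    (ht : algebraMap O L t = θ) {𝔓 𝔮 : HeightOneSpectrum O} (hv : Ov Q 𝔓) (hv2 : Ov Q 𝔮)
    (ht1 : t ∈ 𝔓.asIdeal) (ht2 : t ^ 2 + (a : O) ∈ 𝔮.asIdeal) {z : O}
    {v : Fin 3 → ℤ} (hz : Crd θ v (algebraMap O L z)) (hz1 : z ∈ 𝔓.asIdeal)
    (hz2 : z ∈ 𝔮.asIdeal) : Q ∣ v 0 ∧ Q ∣ v 1 ∧ Q ∣ v 2 := by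
  have h1 := (mem_P1 hQ ht hv ht1 hz).1 hz1
  obtain ⟨h2, h3⟩ := mem_P2 hQ hns ht hv2 ht2 hz hz2
  refine ⟨h1, h2, ?_⟩
  have h4 : Q ∣ a * v 2 := by
    have := dvd_sub h1 h3
    rwa [sub_sub_cancel] at this
  rcases hQ.dvd_or_dvd h4 with h5 | h5
  · exfalso
    apply hns 0
    simpa using h5
  · exact h5

theorem not_dvd_a {Q : ℤ} (hns : ∀ z : ℤ, ¬ Q ∣ z ^ 2 + a) : ¬ Q ∣ a := by
  intro h1
  apply hns 0
  simpa using h1

/-- the two primes are different -/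
theorem theta_not_mem {Q : ℤ} (hQ : Prime Q) (hns : ∀ z : ℤ, ¬ Q ∣ z ^ 2 + a) {t : O}
    {𝔮 : HeightOneSpectrum O} (hv2 : Ov Q 𝔮) (ht2 : t ^ 2 + (a : O) ∈ 𝔮.asIdeal) :
    t ∉ 𝔮.asIdeal := by
  intro h1
  have h2 : (a : O) ∈ 𝔮.asIdeal := by
    have := 𝔮.asIdeal.sub_mem ht2 (𝔮.asIdeal.mul_mem_left t h1)
    have e : t ^ 2 + (a : O) - t * t = (a : O) := by ring
    rwa [e] at this
  exact not_dvd_a hns ((poly_mem hQ hv2 a).1 h2)

end main

section main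

variable {L O : Type} [Field L] [NumberField L] [CommRing O]
  [IsDedekindDomain O] [Algebra O L] [IsFractionRing O L] [IsIntegralClosure O ℤ L] {a b : ℤ} {θ : L}

/-- the lattice -/
def InI {L : Type} [Field L] (e : Fin 3 → L) (α y : L) :
    Prop := ∀ i, IsIntegral ℤ (e i * y / α)

theorem InI.add {e : Fin 3 → L} {α x y : L} (hx : InI e α x) (hy : InI e α y) :
    InI e α (x + y) := fun i => by
  have := (hx i).add (hy i)
  rwa [← add_div, ← mul_add] at this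

theorem InI.sub {e : Fin 3 → L} {α x y : L} (hx : InI e α x) (hy : InI e α y) :
    InI e α (x - y) := fun i => by
  have := (hx i).sub (hy i)
  rwa [← sub_div, ← mul_sub] at this

theorem InI.mul {e : Fin 3 → L} {α x c : L} (hc : IsIntegral ℤ c) (hx : InI e α x) :
    InI e α (c * x) := fun i => by
  have := hc.mul (hx i)
  have e1 : c * (e i * x / α) = e i * (c * x) / α := by ring
  rwa [e1] at this

theorem int_poly (c : ℤ) : IsIntegral ℤ (c : L) := isIntegral_algebraMap (R := ℤ) (x := c)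

theorem InI.of_span {e : Fin 3 → L} {α : L} (hSD : SD e α) (c : Fin 3 → ℤ) :
    InI e α (∑ i, ((c i : ℤ) : L) * e i) := fun i => by
  have e1 : e i * (∑ j, ((c j : ℤ) : L) * e j) / α =
      ∑ j, ((c j : ℤ) : L) * (e i * e j / α) := by
    rw [Finset.mul_sum, Finset.sum_div]
    exact Finset.sum_congr rfl fun j _ => by ring
  rw [e1]
  exact IsIntegral.sum _ fun j _ => (int_poly (c j)).mul (hSD.int i j)

theorem InI.prod {e : Fin 3 → L} {α x y : L} (hSD : SD e α) (hx : InI e α x)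
    (hy : InI e α y) : IsIntegral ℤ (x * y / α) := by
  obtain ⟨c, hc⟩ := hSD.dual x hx
  have e1 : x * y / α = ∑ j, ((c j : ℤ) : L) * (e j * y / α) := by
    rw [hc, Finset.sum_mul, Finset.sum_div]
    exact Finset.sum_congr rfl fun j _ => by ring
  rw [e1]
  exact IsIntegral.sum _ fun j _ => (int_poly (c j)).mul (hy j)

/-- an element of the lattice which is good at `𝔓` -/
theorem stepA {e : Fin 3 → L} {α : L} (hα : α ≠ 0) (hSD : SD e α)
    {𝔓 : HeightOneSpectrum O} (hs : Sq1 𝔓 α) :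
    ∃ (y : L) (t g : O), InI e α y ∧ t ∉ 𝔓.asIdeal ∧ algebraMap O L g = y * y / α ∧
      g - t ^ 2 ∈ 𝔓.asIdeal := by
  obtain ⟨s, hs⟩ := hs
  have hvα : 𝔓.valuation L α ≠ 0 := (Valuation.ne_zero_iff _).2 hα
  have hvs : 𝔓.valuation L (s ^ 2) = 𝔓.valuation L α := by
    have h1 : s ^ 2 = α - (α - s ^ 2) := by ring
    rw [h1]
    exact Valuation.map_sub_eq_of_lt_left _ hs
  have hvs' : 𝔓.valuation L (s ^ 2 / α) = 1 := by
    rw [map_div₀, hvs, div_self hvα]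
  have hint : ∀ i, 𝔓.valuation L (e i * s / α) ≤ 1 := by
    intro i
    have h1 : 𝔓.valuation L (e i * e i / α) ≤ 1 := by
      obtain ⟨z, hz⟩ := (int_iff O _).1 (hSD.int i i)
      rw [← hz]
      exact 𝔓.valuation_le_one z
    have h2 : 𝔓.valuation L (e i * s / α) ^ 2 ≤ 1 := by
      rw [← map_pow]
      have h3 : (e i * s / α) ^ 2 = (e i * e i / α) * (s ^ 2 / α) := by
        field_simp
      rw [h3, map_mul, hvs', mul_one]
      exact h1
    exact (pow_le_one_iff two_ne_zero).1 h2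
  choose n d hnd using fun i => 𝔓.exists_primeCompl_mul_eq_of_integer (e i * s / α) (hint i)
  have hd : ∀ i, ((d i : O) : O) ∉ 𝔓.asIdeal := fun i => (d i).2
  obtain ⟨t, ht⟩ : ∃ t : O, t = ∏ i, (d i : O) := ⟨_, rfl⟩
  have htn : t ∉ 𝔓.asIdeal := by
    rw [ht]
    intro hmem
    obtain ⟨i, -, hi⟩ := (Ideal.IsPrime.prod_mem_iff (hp := 𝔓.isPrime)).1 hmem
    exact hd i hi
  have hy : InI e α (s * algebraMap O L t) := by
    intro i
    have h1 : e i * (s * algebraMap O L t) / α =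
        algebraMap O L (n i * ∏ j ∈ Finset.univ.erase i, (d j : O)) := by
      rw [ht, ← Finset.mul_prod_erase _ _ (Finset.mem_univ i), map_mul, map_mul, ← hnd i]
      ring
    rw [h1]
    exact (int_iff O _).2 ⟨_, rfl⟩
  obtain ⟨g, hg⟩ := (int_iff O _).1 (hy.prod hSD hy)
  refine ⟨_, t, g, hy, htn, hg, ?_⟩
  rw [← val_lt_mem (L := L)]
  have h1 : algebraMap O L (g - t ^ 2) = - ((algebraMap O L t) ^ 2 * ((α - s ^ 2) / α)) := by
    rw [map_sub, map_pow, hg]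
    field_simp
    ring
  rw [h1, Valuation.map_neg, map_mul, map_pow, map_div₀]
  have h2 : 𝔓.valuation L (α - s ^ 2) / 𝔓.valuation L α < 1 :=
    (div_lt_one₀ (zero_lt_iff.2 hvα)).2 hs
  calc _ ≤ 1 * (𝔓.valuation L (α - s ^ 2) / 𝔓.valuation L α) :=
        mul_le_mul_left (pow_le_one₀ zero_le (𝔓.valuation_le_one t)) _
    _ < 1 := by rw [one_mul]; exact h2

/-- an element of the lattice which is good at `𝔓` and small at `𝔓'` -/
theorem stepB {e : Fin 3 → L} {α : L} (hα : α ≠ 0) (hSD : SD e α)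
    {𝔓 𝔓' : HeightOneSpectrum O} (hs : Sq1 𝔓 α) (hne : ∃ p ∈ 𝔓'.asIdeal, p ∉ 𝔓.asIdeal) :
    ∃ (x : L) (g : O), InI e α x ∧ algebraMap O L g = x * x / α ∧
      g - 1 ∈ 𝔓.asIdeal ∧ g ∈ 𝔓'.asIdeal := by
  obtain ⟨y, t, g, hy, ht, hg, hgt⟩ := stepA hα hSD hs
  obtain ⟨p, hp', hp⟩ := hne
  have hmax : 𝔓.asIdeal.IsMaximal := 𝔓.isMaximal
  have htp : t * p ∉ 𝔓.asIdeal := fun h => (𝔓.isPrime.mem_or_mem h).elim ht hp
  obtain ⟨c, i, hi, hci⟩ := hmax.exists_inv htp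
  obtain ⟨ε, hε⟩ : ∃ ε, ε = c * p := ⟨_, rfl⟩
  have hεt : ε * t - 1 ∈ 𝔓.asIdeal := by
    have : ε * t - 1 = -i := by rw [hε, ← hci]; ring
    rw [this]
    exact 𝔓.asIdeal.neg_mem hi
  refine ⟨algebraMap O L ε * y, ε ^ 2 * g, hy.mul ((int_iff O _).2 ⟨_, rfl⟩), ?_, ?_, ?_⟩
  · rw [map_mul, map_pow, hg]
    ring
  · have h1 : ε ^ 2 * g - 1 = ε ^ 2 * (g - t ^ 2) + (ε * t + 1) * (ε * t - 1) := by ring
    rw [h1]
    exact 𝔓.asIdeal.add_mem (𝔓.asIdeal.mul_mem_left _ hgt) (𝔓.asIdeal.mul_mem_left _ hεt)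
  · rw [hε, mul_pow, mul_assoc]
    refine 𝔓'.asIdeal.mul_mem_left _ (𝔓'.asIdeal.mul_mem_right _ ?_)
    exact Ideal.pow_mem_of_mem _ hp' 2 two_pos

end main

/-- **TTV** -/
theorem ttv (hI : S_INT) : S_TTV := by
  intro L O _ _ _ _ _ _ _ a b θ h hsq α e hα hSD Q hQ hQb hns hSq
  obtain ⟨t, ht⟩ := theta_ex O h
  obtain ⟨𝔓, hv, ht1⟩ := exists_P1 (O := O) hI h hsq hQ hQb t ht
  obtain ⟨𝔮, hv2, ht2⟩ := exists_P2 (O := O) hI h hsq hQ hQb t ht
  have htq := theta_not_mem hQ hns hv2 ht2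
  have ht2p : t ^ 2 + (a : O) ∉ 𝔓.asIdeal := by
    intro h1
    have h2 : (a : O) ∈ 𝔓.asIdeal := by
      have := 𝔓.asIdeal.sub_mem h1 (𝔓.asIdeal.mul_mem_left t ht1)
      have e : t ^ 2 + (a : O) - t * t = (a : O) := by ring
      rwa [e] at this
    exact not_dvd_a hns ((poly_mem hQ hv a).1 h2)
  obtain ⟨x₁, g₁, hx₁, hg₁, hg₁P, hg₁q⟩ := stepB hα hSD (hSq 𝔓 hv) ⟨_, ht2, ht2p⟩
  obtain ⟨x₂, g₂, hx₂, hg₂, hg₂q, hg₂P⟩ := stepB hα hSD (hSq 𝔮 hv2) ⟨_, ht1, htq⟩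
  obtain ⟨hh, hhh⟩ := (int_iff O _).1 (hx₁.prod hSD hx₂)
  have hsqh : hh ^ 2 = g₁ * g₂ := by
    apply IsFractionRing.injective O L
    rw [map_pow, map_mul, hhh, hg₁, hg₂]
    field_simp
  have hhP : hh ∈ 𝔓.asIdeal := by
    apply 𝔓.isPrime.mem_of_pow_mem 2
    rw [hsqh]
    exact 𝔓.asIdeal.mul_mem_left _ hg₂P
  have hhq : hh ∈ 𝔮.asIdeal := by
    apply 𝔮.isPrime.mem_of_pow_mem 2
    rw [hsqh]
    exact 𝔮.asIdeal.mul_mem_right _ hg₁q
  obtain ⟨ξ, hξ⟩ := hSD.dual _ (hx₁.add hx₂)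
  obtain ⟨ξ', hξ'⟩ := hSD.dual _ (hx₁.sub hx₂)
  have hQ2 : ¬ Q ∣ 2 := by
    intro h2
    rcases Int.emod_two_eq_zero_or_one a with ha | ha
    · apply hns 0
      refine h2.trans ?_
      omega
    · apply hns 1
      refine h2.trans ?_
      omega
  -- coordinates of the values
  have hval : ∀ (c : ℤ), c = 1 ∨ c = -1 → ∃ v : Fin 3 → ℤ, Q ∣ v 1 ∧ Q ∣ v 2 ∧
      Crd θ v ((x₁ + (c : L) * x₂) ^ 2 / α) := by
    intro c hc
    have hcc : c * c = 1 := by rcases hc with rfl | rfl <;> ring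
    obtain ⟨z, hz⟩ : ∃ z : O, z = g₁ + 2 * (c : O) * hh + g₂ := ⟨_, rfl⟩
    have hzL : algebraMap O L z = (x₁ + (c : L) * x₂) ^ 2 / α := by
      rw [hz]
      simp only [map_add, map_mul, mapO, hg₁, hg₂, hhh, map_ofNat]
      have h3 : (c : L) * (c : L) = 1 := by
        exact_mod_cast congrArg (Int.cast (R := L)) hcc
      have h4 : (x₁ + (c : L) * x₂) ^ 2 / α = x₁ * x₁ / α +
        2 * (c : L) * (x₁ * x₂ / α) +
        ((c : L) * (c : L)) * (x₂ * x₂ / α) := by ring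
      rw [h4, h3, one_mul]
    obtain ⟨v, hvz⟩ := exO (O := O) hI h hsq z
    have hz1 : Crd θ (v + ![-1, 0, 0]) (algebraMap O L (z - 1)) := by
      have := crd_add hvz (crd_C θ (-1))
      have e1 : algebraMap O L z + ((-1 : ℤ) : L) = algebraMap O L (z - 1) := by
        rw [Int.cast_neg, Int.cast_one, map_sub, map_one]; ring
      rwa [e1] at this
    have hzP : z - 1 ∈ 𝔓.asIdeal := by
      have e1 : z - 1 = (g₁ - 1) + 2 * (c : O) * hh + g₂ := by rw [hz]; ring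
      rw [e1]
      exact 𝔓.asIdeal.add_mem (𝔓.asIdeal.add_mem hg₁P (𝔓.asIdeal.mul_mem_left _ hhP)) hg₂P
    have hzq : z - 1 ∈ 𝔮.asIdeal := by
      have e1 : z - 1 = g₁ + 2 * (c : O) * hh + (g₂ - 1) := by rw [hz]; ring
      rw [e1]
      exact 𝔮.asIdeal.add_mem (𝔮.asIdeal.add_mem hg₁q (𝔮.asIdeal.mul_mem_left _ hhq)) hg₂q
    obtain ⟨-, h7, h8⟩ := mem_both hQ hns ht hv hv2 ht1 ht2 hz1 hzP hzq
    refine ⟨v, ?_, ?_, ?_⟩
    · simpa using h7
    · simpa using h8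
    · rw [← hzL]
      exact hvz
  have hv1 : ∃ v : Fin 3 → ℤ, Q ∣ v 1 ∧ Q ∣ v 2 ∧
      Crd θ v ((∑ i, ((ξ i : ℤ) : L) * e i) ^ 2 / α) := by
    obtain ⟨v, a1, a2, a3⟩ := hval 1 (Or.inl rfl)
    refine ⟨v, a1, a2, ?_⟩
    rw [← hξ]
    rw [Int.cast_one, one_mul] at a3
    exact a3
  have hv1' : ∃ v : Fin 3 → ℤ, Q ∣ v 1 ∧ Q ∣ v 2 ∧
      Crd θ v ((∑ i, ((ξ' i : ℤ) : L) * e i) ^ 2 / α) := by
    obtain ⟨v, a1, a2, a3⟩ := hval (-1) (Or.inr rfl)
    refine ⟨v, a1, a2, ?_⟩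
    rw [← hξ']
    rw [Int.cast_neg, Int.cast_one, neg_one_mul, ← sub_eq_add_neg] at a3
    exact a3
  refine ⟨ξ, ξ', ?_, hv1, hv1'⟩
  by_contra hcon
  push Not at hcon
  have hg₁n : g₁ ∉ 𝔓.asIdeal := by
    intro hg
    apply 𝔓.isPrime.ne_top
    rw [Ideal.eq_top_iff_one]
    have := 𝔓.asIdeal.sub_mem hg hg₁P
    rwa [sub_sub_cancel] at this
  have hg₂n : g₂ ∉ 𝔮.asIdeal := by
    intro hg
    apply 𝔮.isPrime.ne_top
    rw [Ideal.eq_top_iff_one]
    have := 𝔮.asIdeal.sub_mem hg hg₂q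
    rwa [sub_sub_cancel] at this
  -- all coordinates are divisible by `Q`
  have hdiv : ∀ j, Q ∣ ξ j := by
    intro j
    choose r hr using fun i => hcon j i
    have hrel : ((ξ j : ℤ) : L) * (x₁ - x₂) - ((ξ' j : ℤ) : L) * (x₁ + x₂) =
        (Q : L) * ∑ i, ((r i : ℤ) : L) * e i := by
      rw [hξ, hξ', Finset.mul_sum, Finset.mul_sum, Finset.mul_sum, ← Finset.sum_sub_distrib]
      refine Finset.sum_congr rfl fun i _ => ?_
      have h1 := congrArg (Int.cast (R := L)) (hr i)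
      rw [Int.cast_sub, Int.cast_mul, Int.cast_mul, Int.cast_mul] at h1
      linear_combination (e i) * h1
    have hw : InI e α (∑ i, ((r i : ℤ) : L) * e i) := InI.of_span hSD r
    obtain ⟨w₁, hw₁⟩ := (int_iff O _).1 (hw.prod hSD hx₁)
    obtain ⟨w₂, hw₂⟩ := (int_iff O _).1 (hw.prod hSD hx₂)
    have e1 : ((ξ j - ξ' j : ℤ) : O) * g₁ =
        ((ξ j + ξ' j : ℤ) : O) * hh + (Q : O) * w₁ := by
      apply IsFractionRing.injective O L
      simp only [map_add, map_mul, map_sub, mapO, hg₁, hhh, hw₁, Int.cast_sub, Int.cast_add]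
      linear_combination (x₁ / α) * hrel
    have e2 : ((ξ j + ξ' j : ℤ) : O) * g₂ =
        ((ξ j - ξ' j : ℤ) : O) * hh - (Q : O) * w₂ := by
      apply IsFractionRing.injective O L
      simp only [map_add, map_mul, map_sub, mapO, hg₂, hhh, hw₂, Int.cast_sub, Int.cast_add]
      linear_combination (-x₂ / α) * hrel
    have e3 : ((ξ j - ξ' j : ℤ) : O) * g₁ ∈ 𝔓.asIdeal := by
      rw [e1]
      exact 𝔓.asIdeal.add_mem (𝔓.asIdeal.mul_mem_left _ hhP) (𝔓.asIdeal.mul_mem_right _ hv)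
    have e4 : ((ξ j + ξ' j : ℤ) : O) * g₂ ∈ 𝔮.asIdeal := by
      rw [e2]
      exact 𝔮.asIdeal.sub_mem (𝔮.asIdeal.mul_mem_left _ hhq) (𝔮.asIdeal.mul_mem_right _ hv2)
    have e5 : Q ∣ ξ j - ξ' j :=
      (poly_mem hQ hv _).1 ((𝔓.isPrime.mem_or_mem e3).resolve_right hg₁n)
    have e6 : Q ∣ ξ j + ξ' j :=
      (poly_mem hQ hv2 _).1 ((𝔮.isPrime.mem_or_mem e4).resolve_right hg₂n)
    have e7 : Q ∣ 2 * ξ j := by
      have := dvd_add e5 e6
      have e8 : ξ j - ξ' j + (ξ j + ξ' j) = 2 * ξ j := by ring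
      rwa [e8] at this
    exact (hQ.dvd_or_dvd e7).resolve_left hQ2
  choose r hr using hdiv
  have hx : x₁ + x₂ = (Q : L) * ∑ i, ((r i : ℤ) : L) * e i := by
    rw [hξ, Finset.mul_sum]
    refine Finset.sum_congr rfl fun i _ => ?_
    rw [hr i, Int.cast_mul]
    ring
  have hw : InI e α (∑ i, ((r i : ℤ) : L) * e i) := InI.of_span hSD r
  obtain ⟨w₁, hw₁⟩ := (int_iff O _).1 (hw.prod hSD hx₁)
  have e1 : g₁ + hh = (Q : O) * w₁ := by
    apply IsFractionRing.injective O L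
    simp only [map_add, map_mul, mapO, hg₁, hhh, hw₁]
    linear_combination (x₁ / α) * hx
  apply hg₁n
  have e2 : g₁ = (Q : O) * w₁ - hh := by rw [← e1]; ring
  rw [e2]
  exact 𝔓.asIdeal.sub_mem (𝔓.asIdeal.mul_mem_right _ hv) hhP

end Pool.Agent.N301.PQ
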